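import Mathlib
import Pool.Agent.H.MP_807794_lc.A

set_option autoImplicit false

namespace Pool.Agent.Results.MP_b963f4_lc.No

open Set Cardinal Ordinal Pool.Agent.H.MP_77d395_lc Pool.Agent.H.MP_6e75db_lc
  Pool.Agent.H.MP_807794_lc

/-- the principle diamond plus -/
def DP : Prop := ∃ W : I → Set (Set I), (∀ α, (W α).Countable) ∧ ∀ X : Set I, ∃ D, IsClub D ∧
  ∀ α ∈ D, X ∩ Iio α ∈ W α ∧ D ∩ Iio α ∈ W α

theorem ch (h : DP) : 𝔠 < (2 : Cardinal.{0}) ^ ℵ₁ := by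
  obtain ⟨W, w1, w2⟩ := h
  have : Infinite I := infinite_iff.2 (mkI ▸ aleph0_le_aleph 1)
  let ν := Infinite.natEmbedding I
  obtain ⟨b, hb⟩ := bd (countable_range ν)
  refine lt_of_le_of_lt (le_trans ?_ ((mk_iUnion_le W).trans (mul_le_of_le (aleph0_le_aleph 1) mkI.le
    (ciSup_le' fun a => (le_aleph0_iff_set_countable.2 (w1 a)).trans (aleph0_le_aleph 1)))))
    (cantor _)
  have : ∀ X : Set ℕ, ν '' X ∈ ⋃ α, W α := fun X => by
    obtain ⟨D, d1, d2⟩ := w2 (ν '' X)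
    obtain ⟨α, a1, a2⟩ := d1.2 b
    exact mem_iUnion.2 ⟨α, inter_eq_left.2 (fun x ⟨n, _, e⟩ => (hb x ⟨n, e⟩).trans_le a2 :
      ν '' X ⊆ Iio α) ▸ (d2 α a1).1⟩
  exact le_trans (by simp) (mk_le_of_injective (f := fun X => (⟨_, this X⟩ : ⋃ α, W α)) fun X Y e =>
    ν.injective.image_injective (congrArg Subtype.val e))

theorem result (hd : DP) (C : I → Set I) (hC : Lad C) (T : Type) [PartialOrder T] (h : T → I)
    (ht : Tr T h) (hl : ∀ a, (h ⁻¹' {a}).Countable)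
    (hU : ∀ f, ∃ (S : Set T) (φ : T → ℕ), ¬ S.Countable ∧ Un h C f S φ) :
    ∃ A : Set T, IsAntichain (· ≤ ·) A ∧ IsStationary (h '' A) :=
  H.MP_807794_lc.main (ch hd) ht hl hC fun f => let ⟨S, φ, a, c⟩ := hU f
    ⟨S, φ, fun x => by_contra fun n => a (((cI x).biUnion fun b _ => hl b).mono fun s g =>
      mem_biUnion (t := fun b => h ⁻¹' {b}) (show h s ∈ Iic x from
        (not_le.1 fun l => n ⟨s, g, l⟩).le) rfl), c⟩

end Pool.Agent.Results.MP_b963f4_lc.No
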